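import Pool.Agent.Y515.CntG.Kernel
import Mathlib.LinearAlgebra.Dimension.Constructions
import Mathlib.LinearAlgebra.Matrix.Nondegenerate

/-!
Vectors whose components do not span: choice of components, and the use of irreducibility.
-/

set_option autoImplicit false
set_option linter.unusedSectionVars false

open Polynomial Finset
open Pool.Agent.Y709 Pool.Agent.Y515.Cnt

namespace Pool.Agent.Y515.CntG

variable {k : Type} [Field k] [Fintype k]

/-- independent components spanning all components -/
theorem exists_comps {r q : ℕ} (hq0 : 0 < q) (v : Fin r → k[X]) :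
    ∃ (s : ℕ) (i : Fin s → ℕ), (∀ l, i l < q) ∧
      (∀ a : Fin s → k[X], (∀ b, ∑ l, a l * vcp q (i l) v b = 0) → a = 0) ∧
      (∀ L : Fin r → k[X], (∀ l, ∑ b, L b * vcp q (i l) v b = 0) →
        ∑ b, expand k q (L b) * v b = 0) ∧
      ((∃ L : Fin r → k[X], L ≠ 0 ∧ ∑ b, expand k q (L b) * v b = 0) → s < r) ∧
      (v ≠ 0 → 1 ≤ s) := by
  classical
  obtain ⟨f, hf, hfs, hfi⟩ := Submodule.exists_fun_fin_finrank_span_eq (FractionRing k[X])
    (Set.range (fun i : Fin q => io (FractionRing k[X]) (vcp q i v)))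
  choose ix hix using hf
  have hS : io (FractionRing k[X]) '' Set.range (fun l => vcp q (ix l) v) = Set.range f := by
    rw [← Set.range_comp]
    congr 1
    ext1 l
    exact hix l
  have hrel : ∀ L : Fin r → k[X], (∀ l, ∑ b, L b * vcp q (ix l) v b = 0) →
        ∑ b, expand k q (L b) * v b = 0 := by
    intro L hL
    rw [rel_iff hq0]
    intro i hi
    apply rel_span (FractionRing k[X]) (Set.range (fun l => vcp q (ix l) v)) L
    · rintro y ⟨l, rfl⟩
      exact hL l
    · rw [hS, hfs]
      exact Submodule.subset_span ⟨⟨i, hi⟩, rfl⟩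
  refine ⟨_, fun l => ix l, fun l => (ix l).2, ?_, hrel, ?_, ?_⟩
  · intro a ha
    rw [Fintype.linearIndependent_iff] at hfi
    have h1 := hfi (fun l => algebraMap k[X] (FractionRing k[X]) (a l)) (by
      ext b
      rw [Finset.sum_apply, Pi.zero_apply]
      have h2 := congrArg (algebraMap k[X] (FractionRing k[X])) (ha b)
      rw [map_sum, map_zero] at h2
      rw [← h2]
      apply Finset.sum_congr rfl
      intro l _
      rw [← hix l, Pi.smul_apply, smul_eq_mul, map_mul]
      rfl)
    ext1 l
    exact (map_eq_zero_iff _ (IsFractionRing.injective k[X] (FractionRing k[X]))).1 (h1 l)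
  · rintro ⟨L, hL0, hL⟩
    have hne : Submodule.span (FractionRing k[X])
        (Set.range (fun i : Fin q => io (FractionRing k[X]) (vcp q i v))) ≠ ⊤ := by
      intro htop
      apply hL0
      ext1 b
      have h1 := rel_span (FractionRing k[X]) (Set.range (fun i : Fin q => vcp q i v)) L
        (by
          rintro y ⟨i, rfl⟩
          exact (rel_iff hq0 v L).1 hL i i.2) (x := Pi.single b 1) (by
          rw [← Set.range_comp]
          have : (io (FractionRing k[X]) ∘ fun i : Fin q => vcp q i v) =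
            fun i : Fin q => io (FractionRing k[X]) (vcp q i v) := rfl
          rw [this, htop]
          exact Submodule.mem_top)
      rw [Finset.sum_eq_single b] at h1
      · simpa using h1
      · intro c _ hcb
        simp [hcb]
      · intro h; exact absurd (Finset.mem_univ b) h
    have h2 := Submodule.finrank_lt hne
    rw [Module.finrank_fin_fun] at h2
    exact h2
  · intro hv
    by_contra hcon
    apply hv
    have h0 : Module.finrank (FractionRing k[X]) (Submodule.span (FractionRing k[X])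
        (Set.range (fun i : Fin q => io (FractionRing k[X]) (vcp q i v)))) = 0 := by omega
    ext1 b
    have h1 := hrel (Pi.single b 1) (by
      intro l
      exfalso
      have := l.2
      omega)
    rw [Finset.sum_eq_single b] at h1
    · simpa using h1
    · intro c _ hcb
      simp [hcb]
    · intro h; exact absurd (Finset.mem_univ b) h

/-- stability of a subspace over the constants -/
def Stab {r : ℕ} (Φ : Matrix (Fin r) (Fin r) k[X]) (U : Submodule k (Fin r → k)) : Prop :=
  ∀ u ∈ U, ∀ n : ℕ, (fun i => (∑ j, Φ i j * C (u j)).coeff n) ∈ U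

/-- there is no stable subspace -/
def Irr {r : ℕ} (Φ : Matrix (Fin r) (Fin r) k[X]) : Prop :=
  ∀ U : Submodule k (Fin r → k), Stab Φ U → U = ⊥ ∨ U = ⊤

theorem mv_ne_zero {r : ℕ} {Φ : Matrix (Fin r) (Fin r) k[X]} (hdet : Φ.det ≠ 0)
    {w : Fin r → k[X]} (hw : w ≠ 0) : mv Φ w ≠ 0 := by
  intro h
  apply hw
  apply Matrix.eq_zero_of_mulVec_eq_zero hdet
  exact h

theorem mv_sub {r : ℕ} (Φ : Matrix (Fin r) (Fin r) k[X]) (w z : Fin r → k[X]) :
    mv Φ (w - z) = mv Φ w - mv Φ z := by
  ext1 i
  unfold mv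
  simp only [Pi.sub_apply, mul_sub, Finset.sum_sub_distrib]

theorem mv_injective {r : ℕ} {Φ : Matrix (Fin r) (Fin r) k[X]} (hdet : Φ.det ≠ 0) :
    Function.Injective (mv Φ) := by
  intro w z h
  by_contra hne
  apply mv_ne_zero hdet (sub_ne_zero.2 hne)
  rw [mv_sub, h, sub_self]

theorem irr_lemma {r q f : ℕ} (hq0 : 0 < q) {Φ : Matrix (Fin r) (Fin r) k[X]} (hdet : Φ.det ≠ 0)
    (hirr : Irr Φ) (hf : ∀ i j, (Φ i j).natDegree ≤ f) (hfq : f + 1 < q)
    (S : Set (Fin r → k[X])) (hS : ∃ L ∈ S, L ≠ 0) (u0 : Fin r → k[X]) (hu0 : u0 ≠ 0)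
    (hu : ∀ L ∈ S, ∑ b, L b * u0 b = 0) :
    ∃ x : Fin r → k[X], (∀ L ∈ S, ∑ b, L b * x b = 0) ∧
      ∃ L ∈ S, ∑ b, expand k q (L b) * mv Φ x b ≠ 0 := by
  classical
  by_contra hcon
  push Not at hcon
  have hmvdeg : ∀ (x : Fin r → k[X]) (d : ℕ), (∀ b, (x b).natDegree ≤ d) →
      ∀ b, (mv Φ x b).natDegree ≤ f + d := by
    intro x d hx b
    unfold mv
    apply natDegree_sum_le_of_forall_le
    intro j _
    exact natDegree_mul_le.trans (Nat.add_le_add (hf b j) (hx j))
  have hcomp : ∀ x : Fin r → k[X], (∀ L ∈ S, ∑ b, L b * x b = 0) → ∀ i < q,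
      ∀ L ∈ S, ∑ b, L b * vcp q i (mv Φ x) b = 0 := by
    intro x hx i hi L hL
    exact (rel_iff hq0 _ _).1 (hcon x hx L hL) i hi
  -- a nonzero vector of least degree
  have hex : ∃ d : ℕ, ∃ u : Fin r → k[X], (∀ L ∈ S, ∑ b, L b * u b = 0) ∧ u ≠ 0 ∧
      ∀ b, (u b).natDegree ≤ d := by
    refine ⟨∑ b, (u0 b).natDegree, u0, hu, hu0, ?_⟩
    intro b
    exact Finset.single_le_sum (f := fun b => (u0 b).natDegree) (fun _ _ => Nat.zero_le _)
      (Finset.mem_univ b)
  obtain ⟨u, hu1, hu2, hu3⟩ := Nat.find_spec hex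
  have hmin := fun m => Nat.find_min hex (m := m)
  set d := Nat.find hex with hd
  have hd0 : d = 0 := by
    have hne := mv_ne_zero hdet hu2
    obtain ⟨b, hb⟩ : ∃ b, mv Φ u b ≠ 0 := by
      by_contra h
      push Not at h
      exact hne (funext h)
    obtain ⟨i, hi, hib⟩ : ∃ i < q, cp q i (mv Φ u b) ≠ 0 := by
      by_contra h
      push Not at h
      exact hb (eq_zero_of_cp hq0 h)
    by_contra hdne
    have hlt : (f + d) / q < d := by
      rw [Nat.div_lt_iff_lt_mul hq0]
      have : d * q ≥ d * (f + 2) := Nat.mul_le_mul_left d (by omega)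
      have h2 : d * (f + 2) = d * f + d + d := by ring
      have h3 : f ≤ d * f := Nat.le_mul_of_pos_left f (by omega)
      omega
    apply hmin _ hlt
    refine ⟨vcp q i (mv Φ u), hcomp u hu1 i hi, ?_, ?_⟩
    · intro h0
      exact hib (congrFun h0 b)
    · intro c
      refine (natDegree_cp hq0 hi _).trans ?_
      exact Nat.div_le_div_right (hmvdeg u d hu3 c)
  -- constant vectors
  let U : Submodule k (Fin r → k) :=
    { carrier := {c | ∀ L ∈ S, ∑ b, L b * C (c b) = 0}
      add_mem' := by
        intro a c ha hc L hL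
        simp only [Pi.add_apply, map_add, mul_add, Finset.sum_add_distrib]
        rw [ha L hL, hc L hL, add_zero]
      zero_mem' := by
        intro L _
        simp
      smul_mem' := by
        intro t c hc L hL
        have : ∑ b, L b * C ((t • c) b) = C t * ∑ b, L b * C (c b) := by
          rw [Finset.mul_sum]
          apply Finset.sum_congr rfl
          intro b _
          rw [Pi.smul_apply, smul_eq_mul, C_mul]
          ring
        rw [this, hc L hL, mul_zero] }
  have hmemU : ∀ c, c ∈ U ↔ ∀ L ∈ S, ∑ b, L b * C (c b) = 0 := fun c => Iff.rfl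
  have hUbot : U ≠ ⊥ := by
    intro hbot
    apply hu2
    have hc : (fun b => (u b).coeff 0) ∈ U := by
      rw [hmemU]
      intro L hL
      rw [← hu1 L hL]
      apply Finset.sum_congr rfl
      intro b _
      rw [← eq_C_of_natDegree_le_zero (by have := hu3 b; rw [hd0] at this; exact this)]
    rw [hbot, Submodule.mem_bot] at hc
    ext1 b
    rw [eq_C_of_natDegree_le_zero (p := u b) (by have := hu3 b; rw [hd0] at this; exact this)]
    have := congrFun hc b
    simp only [Pi.zero_apply] at this
    rw [this, map_zero]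
    rfl
  have hUtop : U ≠ ⊤ := by
    intro htop
    obtain ⟨L, hL, hL0⟩ := hS
    apply hL0
    ext1 b
    have hc : (Pi.single b 1 : Fin r → k) ∈ U := by rw [htop]; exact Submodule.mem_top
    have h1 := (hmemU _).1 hc L hL
    rw [Finset.sum_eq_single b] at h1
    · simpa using h1
    · intro c _ hcb
      simp [hcb]
    · intro h; exact absurd (Finset.mem_univ b) h
  have hst : Stab Φ U := by
    intro c hc n
    have hdeg0 : ∀ b, (mv Φ (fun j => C (c j)) b).natDegree ≤ f := by
      intro b
      have := hmvdeg (fun j => C (c j)) 0 (fun b => by rw [natDegree_C]) b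
      simpa using this
    rcases Nat.lt_or_ge n q with hn | hn
    · rw [hmemU]
      intro L hL
      have h1 := hcomp (fun j => C (c j)) hc (q - 1 - n) (by omega) L hL
      rw [← h1]
      apply Finset.sum_congr rfl
      intro b _
      congr 1
      have hi : q - 1 - n < q := by omega
      have h2 : (cp q (q - 1 - n) (mv Φ (fun j => C (c j)) b)).natDegree ≤ 0 := by
        refine (natDegree_cp hq0 hi _).trans ?_
        rw [Nat.le_zero, Nat.div_eq_zero_iff_lt hq0]
        have := hdeg0 b
        omega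
      unfold vcp
      rw [eq_C_of_natDegree_le_zero h2, coeff_cp hq0 hi]
      congr 2
      omega
    · have : (fun i => (∑ j, Φ i j * C (c j)).coeff n) = 0 := by
        ext1 b
        have := hdeg0 b
        exact coeff_eq_zero_of_natDegree_lt (lt_of_le_of_lt this (by omega))
      rw [this]
      exact U.zero_mem
  rcases hirr U hst with h | h
  · exact hUbot h
  · exact hUtop h

/-- the number of vectors with given components -/
theorem fiber_le {r s q f M : ℕ} (hq0 : 0 < q) (hqk : Fintype.card k = q)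
    {Φ : Matrix (Fin r) (Fin r) k[X]} (hdet : Φ.det ≠ 0)
    (hirr : Irr Φ) (hf : ∀ i j, (Φ i j).natDegree ≤ f) (hfq : f + 1 < q)
    (u : Fin s → Fin r → k[X]) (W : Finset (Fin r → k[X]))
    (hW : ∀ w ∈ W, (∀ b, w b ∈ PF k M) ∧ w ≠ 0 ∧
      (∀ L : Fin r → k[X], (∀ l, ∑ b, L b * u l b = 0) → ∑ b, expand k q (L b) * mv Φ w b = 0) ∧
      (∀ L : Fin r → k[X], ∑ b, expand k q (L b) * mv Φ w b = 0 → ∑ b, L b * w b = 0) ∧
      (∃ L : Fin r → k[X], L ≠ 0 ∧ ∀ l, ∑ b, L b * u l b = 0)) :
    W.card ≤ (q ^ M) ^ (s - 1) := by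
  classical
  rcases W.eq_empty_or_nonempty with h0 | ⟨w0, hw0⟩
  · rw [h0]; simp
  obtain ⟨_, hw0ne, hw01, hw02, L0, hL0, hL0u⟩ := hW w0 hw0
  obtain ⟨x, hx1, L, hL, hx2⟩ := irr_lemma hq0 hdet hirr hf hfq
    {L : Fin r → k[X] | ∀ l, ∑ b, L b * u l b = 0} ⟨L0, hL0u, hL0⟩ w0 hw0ne
    (fun L hL => hw02 L (hw01 L hL))
  set Qu : Submodule (FractionRing k[X]) (Fin r → FractionRing k[X]) :=
    Submodule.span _ (Set.range (fun l => io (FractionRing k[X]) (u l))) with hQu
  set Q : Submodule (FractionRing k[X]) (Fin r → FractionRing k[X]) :=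
    Submodule.span _ (io (FractionRing k[X]) '' (W : Set (Fin r → k[X]))) with hQ
  have hin : ∀ y : Fin r → k[X], (∀ L : Fin r → k[X], (∀ l, ∑ b, L b * u l b = 0) →
      ∑ b, L b * y b = 0) → io (FractionRing k[X]) y ∈ Qu := by
    intro y hy
    by_contra hcon
    obtain ⟨L, hL, hLy⟩ := exists_sep (FractionRing k[X]) Qu hcon
    apply hLy
    apply hy
    intro l
    apply hL
    exact Submodule.subset_span ⟨l, rfl⟩
  have hle : Q ≤ Qu := by
    rw [hQ, Submodule.span_le]
    rintro _ ⟨w, hw, rfl⟩
    obtain ⟨_, _, hw1, hw2, _⟩ := hW w hw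
    exact hin w (fun L hL => hw2 L (hw1 L hL))
  have hxu : io (FractionRing k[X]) x ∈ Qu := hin x hx1
  have hxQ : io (FractionRing k[X]) x ∉ Q := by
    intro hxQ
    apply hx2
    have hswap : ∀ y : Fin r → k[X], ∑ b, expand k q (L b) * mv Φ y b =
        ∑ j, (∑ b, expand k q (L b) * Φ b j) * y j := by
      intro y
      unfold mv
      simp only [Finset.mul_sum, Finset.sum_mul]
      rw [Finset.sum_comm]
      apply Finset.sum_congr rfl
      intro j _
      apply Finset.sum_congr rfl
      intro b _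
      ring
    rw [hswap]
    apply rel_span (FractionRing k[X]) (W : Set (Fin r → k[X])) _ _ hxQ
    intro w hw
    rw [← hswap]
    exact (hW w hw).2.2.1 L hL
  have hlt : Q < Qu := lt_of_le_of_ne hle (fun h => hxQ (h ▸ hxu))
  have h1 := Submodule.finrank_lt_finrank_of_lt hlt
  have h2 : Module.finrank (FractionRing k[X]) Qu ≤ s := by
    have := finrank_range_le_card (R := FractionRing k[X]) (fun l => io (FractionRing k[X]) (u l))
    rw [Fintype.card_fin] at this
    exact this
  have h3 := card_le_of_subspace (FractionRing k[X]) (M := M) Q W (fun w hw =>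
    ⟨(hW w hw).1, Submodule.subset_span ⟨w, hw, rfl⟩⟩)
  rw [hqk] at h3
  refine h3.trans ?_
  apply Nat.pow_le_pow_right (by positivity)
  omega

end Pool.Agent.Y515.CntG
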