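import Mathlib.Tactic

/-!
Arithmetic for the count.
-/

set_option autoImplicit false

namespace Pool.Agent.Y515.CntG

/-- a lower bound for `(N + 1) / q` -/
theorem floor_ge {q M N ρ : ℕ} (hq0 : 0 < q) (hN : N + 1 = (q - 1) * M + ρ) :
    M ≤ (N + 1) / q + M / q + 1 := by
  have h1 : M < q * (M / q) + q := by
    have := Nat.div_add_mod M q
    have := Nat.mod_lt M hq0
    omega
  have h2 : M - (M / q + 1) ≤ (N + 1) / q := by
    rw [Nat.le_div_iff_mul_le hq0]
    obtain ⟨t, rfl⟩ : ∃ t, q = t + 1 := ⟨q - 1, by omega⟩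
    rw [Nat.add_sub_cancel] at hN
    rw [Nat.sub_mul]
    have e1 : M * (t + 1) = t * M + M := by ring
    have e2 : (M / (t + 1) + 1) * (t + 1) = (t + 1) * (M / (t + 1)) + (t + 1) := by ring
    rw [e1, e2]
    omega
  omega

theorem arith_low {r q f M N ρ t : ℕ} (hq : r * f + 3 * r ^ 2 + 6 * r + 8 ≤ q)
    (hM : 4 * r ^ 2 + 8 ≤ M) (hN : N + 1 = (q - 1) * M + ρ) (ht1 : 1 ≤ t) (htr : t < r) :
    M * (t - 1) + ((M - 1 + f) / q + 1) * (r * t) + 2 ≤ t * ((N + 1) / q) := by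
  have hq0 : 0 < q := by omega
  have hF := floor_ge hq0 hN
  set F := (N + 1) / q with hFdef
  set m := M / q with hm
  set B := (M - 1 + f) / q with hB
  have hmq : q * m ≤ M := Nat.mul_div_le M q
  have hBq : q * B ≤ M - 1 + f := Nat.mul_div_le _ q
  obtain ⟨a, rfl⟩ : ∃ a, t = a + 1 := ⟨t - 1, by omega⟩
  rw [Nat.add_sub_cancel]
  -- main inequality
  have key : q * ((B + 1) * (r * (a + 1)) + 2 + (a + 1) * m + (a + 1)) ≤ q * M := by
    have hra : a + 2 ≤ r := by omega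
    have h1 : q * B ≤ M + f := by omega
    have e1 : q * ((B + 1) * (r * (a + 1)) + 2 + (a + 1) * m + (a + 1)) =
        (q * B) * (r * (a + 1)) + q * (r * (a + 1)) + 2 * q + (a + 1) * (q * m) + q * (a + 1) := by
      ring
    rw [e1]
    have h2 : (q * B) * (r * (a + 1)) ≤ (M + f) * (r * (a + 1)) := Nat.mul_le_mul_right _ h1
    have h3 : (a + 1) * (q * m) ≤ (a + 1) * M := Nat.mul_le_mul_left _ hmq
    have h4 : (M + f) * (r * (a + 1)) = M * (r * (a + 1)) + (r * f) * (a + 1) := by ring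
    have h5 : (r * f) * (a + 1) ≤ q * (a + 1) := Nat.mul_le_mul_right _ (by nlinarith)
    have h6 : r * (a + 1) + (a + 1) ≤ r ^ 2 := by nlinarith
    have h7 : M * (r * (a + 1)) + (a + 1) * M ≤ M * r ^ 2 := by
      calc M * (r * (a + 1)) + (a + 1) * M = M * (r * (a + 1) + (a + 1)) := by ring
        _ ≤ M * r ^ 2 := Nat.mul_le_mul_left _ h6
    have h8 : q * (a + 1) + q * (r * (a + 1)) + 2 * q + q * (a + 1) ≤ q * (r ^ 2 + r) := by
      calc q * (a + 1) + q * (r * (a + 1)) + 2 * q + q * (a + 1) =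
          q * ((a + 1) + r * (a + 1) + 2 + (a + 1)) := by ring
        _ ≤ q * (r ^ 2 + r) := Nat.mul_le_mul_left _ (by nlinarith)
    have h9 : M * r ^ 2 + q * (r ^ 2 + r) ≤ q * M := by
      have h10 : 3 * r ^ 2 ≤ q := by nlinarith
      have h11 : M * (3 * r ^ 2) ≤ M * q := Nat.mul_le_mul_left _ h10
      have h12 : q * (4 * r ^ 2 + 8) ≤ q * M := Nat.mul_le_mul_left _ hM
      have h13 : q * (3 * (r ^ 2 + r)) ≤ q * (2 * (4 * r ^ 2 + 8)) :=
        Nat.mul_le_mul_left _ (by nlinarith)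
      nlinarith
    omega
  have key2 := Nat.le_of_mul_le_mul_left key hq0
  have h14 : (a + 1) * M ≤ (a + 1) * (F + m + 1) := Nat.mul_le_mul_left _ hF
  have e2 : (a + 1) * (F + m + 1) = (a + 1) * F + (a + 1) * m + (a + 1) := by ring
  have e3 : (a + 1) * M = M * a + M := by ring
  rw [e2, e3] at h14
  omega

/-- the hypothesis of the lattice statement -/
theorem arith_cond {r q f M N ρ : ℕ} (hr : 1 ≤ r) (hq : r * f + 3 * r ^ 2 + 6 * r + 8 ≤ q)
    (hM : 4 * r ^ 2 + 8 ≤ M) (hN : N + 1 = (q - 1) * M + ρ) :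
    r * M < (r + 1) * ((N + 1) / q) := by
  have hq0 : 0 < q := by omega
  have hF := floor_ge hq0 hN
  set F := (N + 1) / q with hFdef
  set m := M / q with hm
  have hmq : q * m ≤ M := Nat.mul_div_le M q
  have h1 : (r + 1) * M ≤ (r + 1) * (F + m + 1) := Nat.mul_le_mul_left _ hF
  have h2 : (r + 1) * m + (r + 1) < M := by
    have h3 : (2 * (r + 1)) * m ≤ q * m := Nat.mul_le_mul_right _ (by nlinarith)
    have h4 : 2 * (r + 1) < M := by nlinarith
    nlinarith
  have e1 : (r + 1) * (F + m + 1) = (r + 1) * F + ((r + 1) * m + (r + 1)) := by ring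
  have e2 : (r + 1) * M = r * M + M := by ring
  rw [e1, e2] at h1
  omega

/-- `e_j ≤ M` -/
theorem arith_le {q f M N ρ l : ℕ} (hq0 : 0 < q) (hρ : ρ + f ≤ q - 1) (hM : 1 ≤ M)
    (hN : N + 1 = (q - 1) * M + ρ) (hl : l ≤ M - 1 + f) : (N + 1 + l) / q ≤ M := by
  have : (N + 1 + l) / q < M + 1 := by
    rw [Nat.div_lt_iff_lt_mul hq0]
    obtain ⟨t, rfl⟩ : ∃ t, q = t + 1 := ⟨q - 1, by omega⟩
    rw [Nat.add_sub_cancel] at *
    have e1 : (M + 1) * (t + 1) = t * M + M + t + 1 := by ring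
    rw [e1]
    omega
  omega

/-- `e_j ≥ M - 1` or `M` when the degree is large -/
theorem arith_ge {q f M N ρ l : ℕ} (hq0 : 0 < q) (hM : 1 ≤ M)
    (hN : N + 1 = (q - 1) * M + ρ) (hl : M - 1 + f < l + q) :
    M ≤ (N + 1 + l) / q + (if ρ + l < M then 1 else 0) := by
  obtain ⟨t, rfl⟩ : ∃ t, q = t + 1 := ⟨q - 1, by omega⟩
  rw [Nat.add_sub_cancel] at *
  split_ifs with h
  · have : M - 1 ≤ (N + 1 + l) / (t + 1) := by
      rw [Nat.le_div_iff_mul_le hq0, Nat.sub_mul, one_mul]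
      have e1 : M * (t + 1) = t * M + M := by ring
      rw [e1]
      omega
    omega
  · rw [add_zero, Nat.le_div_iff_mul_le hq0]
    have e1 : M * (t + 1) = t * M + M := by ring
    rw [e1]
    omega

/-- exponents of the part with a short vector -/
theorem arith_B {r q f M N ρ l : ℕ} (hrq : r + 1 ≤ q) (hM : 1 ≤ M)
    (hN : N + 1 = (q - 1) * M + ρ) (hl : l ≤ M - 1 + f) :
    (l + 1) + r * ((M - 1 + f - l) / q + 1) + (q - r - 1) * ((M - 1 + f - l) / q) ≤
      f + r + 1 + (N + 1 + l) / q := by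
  have hq0 : 0 < q := by omega
  set a := (M - 1 + f - l) / q with ha
  have haq : q * a ≤ M - 1 + f - l := Nat.mul_div_le _ q
  have ha2 : M - 1 + f - l < q * a + q := by
    have h0 := Nat.div_add_mod (M - 1 + f - l) q
    rw [← ha] at h0
    have h1 := Nat.mod_lt (M - 1 + f - l) hq0
    omega
  have hE : M - (a + 1) ≤ (N + 1 + l) / q := by
    rw [Nat.le_div_iff_mul_le hq0, Nat.sub_mul]
    obtain ⟨t, rfl⟩ : ∃ t, q = t + 1 := ⟨q - 1, by omega⟩
    rw [Nat.add_sub_cancel] at hN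
    have e1 : M * (t + 1) = t * M + M := by ring
    have e2 : (a + 1) * (t + 1) = (t + 1) * a + (t + 1) := by ring
    rw [e1, e2]
    omega
  obtain ⟨c, rfl⟩ : ∃ c, q = c + r + 1 := ⟨q - r - 1, by omega⟩
  have e3 : c + r + 1 - r - 1 = c := by omega
  rw [e3]
  have e4 : (c + r + 1) * a = c * a + r * a + a := by ring
  have e5 : r * (a + 1) = r * a + r := by ring
  rw [e4] at haq
  rw [e5]
  omega

end Pool.Agent.Y515.CntG
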