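import Pool.Agent.Y515.CntG.SumLow

/-!
Lattice data of a vector whose coordinates are independent over the `q`-th powers; the part of
the sum where the coefficient matrix is constant.
-/

set_option autoImplicit false
set_option linter.unusedSectionVars false

open Polynomial Finset
open Pool.Agent.Y709 Pool.Agent.Y515.Cnt

namespace Pool.Agent.Y515.CntG

variable {k : Type} [Field k] [Fintype k]

/-- lattice data -/
structure Dt {r : ℕ} (q N V : ℕ) (v : Fin r → k[X]) (n : Fin r → k[X])
    (A : Fin r → Fin r → k[X]) : Prop where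
  hv : ∀ i, v i = ∑ j, expand k q (A i j) * n j
  hA : ∀ i j, A i j = 0 ∨ q * (A i j).natDegree + (n j).natDegree ≤ V
  hinj : ∀ a : Fin r → k[X], (∀ j, ∑ i, a i * A i j = 0) → a = 0
  hl : ∀ j, (n j).natDegree ≤ V
  hcount : (KerF q N v).card * q ^ (∑ j, (N + 1 + (n j).natDegree) / q) ≤ q ^ (N + 1)

theorem exists_dt {r q f M N ρ : ℕ} (hqk : Fintype.card k = q) (hr : 1 ≤ r)
    (hlat : LatGen k q r) (hq : r * f + 3 * r ^ 2 + 6 * r + 8 ≤ q) (hM : 4 * r ^ 2 + 8 ≤ M)
    (hρ : ρ + f ≤ q - 1) (hN : N + 1 = (q - 1) * M + ρ) (v : Fin r → k[X])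
    (hv : ∀ i, (v i).natDegree ≤ M - 1 + f)
    (hind : ∀ a : Fin r → k[X], ∑ i, expand k q (a i) * v i = 0 → a = 0) :
    ∃ (n : Fin r → k[X]) (A : Fin r → Fin r → k[X]), Dt q N (M - 1 + f) v n A := by
  classical
  have hq0 : 0 < q := by omega
  obtain ⟨n, A, _, _, hvA, hA, hcount⟩ := hlat v hind
  have hinj : ∀ a : Fin r → k[X], (∀ j, ∑ i, a i * A i j = 0) → a = 0 := by
    intro a ha
    apply hind
    have : ∑ i, expand k q (a i) * v i = ∑ j, expand k q (∑ i, a i * A i j) * n j := by
      simp only [hvA, Finset.mul_sum, map_sum, Finset.sum_mul, map_mul]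
      rw [Finset.sum_comm]
      apply Finset.sum_congr rfl
      intro j _
      apply Finset.sum_congr rfl
      intro i _
      ring
    rw [this]
    apply Finset.sum_eq_zero
    intro j _
    rw [ha j, map_zero, zero_mul]
  have hl : ∀ j, (n j).natDegree ≤ M - 1 + f := by
    intro j
    obtain ⟨i, hi⟩ : ∃ i, A i j ≠ 0 := by
      by_contra hcon
      push Not at hcon
      have hdet : (Matrix.of A).det = 0 := Matrix.det_eq_zero_of_column_eq_zero j hcon
      obtain ⟨a, ha0, ha⟩ := Matrix.exists_vecMul_eq_zero_iff.2 hdet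
      apply ha0
      apply hinj
      intro j'
      exact congrFun ha j'
    have h1 := (hA i j).resolve_left hi
    have h2 := hv i
    omega
  refine ⟨n, A, hvA, ?_, hinj, hl, ?_⟩
  · intro i j
    rcases hA i j with h | h
    · exact Or.inl h
    · right
      exact h.trans (hv i)
  · have h1 := hcount N (by
      have h2 : ∑ j, (N + 1 + (n j).natDegree) / q ≤ ∑ _j : Fin r, M := by
        apply Finset.sum_le_sum
        intro j _
        exact arith_le hq0 hρ (by omega) hN (hl j)
      rw [Finset.sum_const, Finset.card_univ, Fintype.card_fin, smul_eq_mul] at h2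
      exact lt_of_le_of_lt h2 (arith_cond hr hq hM hN))
    rw [natcard_ker, Nat.card_eq_fintype_card, hqk] at h1
    exact h1

open scoped Classical in
/-- the constant combinations of small degree -/
noncomputable def Cset {r : ℕ} (m : ℕ) (v : Fin r → k[X]) : Finset (Fin r → k) :=
  Finset.univ.filter (fun c => ∑ i, C (c i) * v i ∈ PF k m)

theorem mem_Cset {r m : ℕ} {v : Fin r → k[X]} {c : Fin r → k} :
    c ∈ Cset m v ↔ ∑ i, C (c i) * v i ∈ PF k m := by
  classical
  unfold Cset
  rw [Finset.mem_filter]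
  exact ⟨fun h => h.2, fun h => ⟨Finset.mem_univ _, h⟩⟩

theorem ker_const {r q f M N ρ : ℕ} (hqk : Fintype.card k = q) (hq0 : 0 < q) (hM : 1 ≤ M)
    (hN : N + 1 = (q - 1) * M + ρ) (v n : Fin r → k[X]) (A : Fin r → Fin r → k[X])
    (hd : Dt q N (M - 1 + f) v n A) (hbig : ∀ j, M - 1 + f < (n j).natDegree + q) :
    (KerF q N v).card * q ^ (r * M) ≤ q ^ (N + 1) * (Cset (M - ρ) v).card := by
  classical
  have hconst : ∀ i j, A i j = C ((A i j).coeff 0) := by
    intro i j
    rcases hd.hA i j with h | h
    · rw [h]; simp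
    · apply eq_C_of_natDegree_le_zero
      by_contra hcon
      have : q * 1 ≤ q * (A i j).natDegree := Nat.mul_le_mul_left q (by omega)
      have := hbig j
      omega
  let T : (Fin r → k) →ₗ[k] (Fin r → k) :=
    { toFun := fun c j => ∑ i, c i * (A i j).coeff 0
      map_add' := by
        intro a b
        ext j
        simp only [Pi.add_apply, add_mul, Finset.sum_add_distrib]
      map_smul' := by
        intro t a
        ext j
        simp only [Pi.smul_apply, smul_eq_mul, RingHom.id_apply, Finset.mul_sum, mul_assoc] }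
  have hTinj : Function.Injective T := by
    rw [← LinearMap.ker_eq_bot, LinearMap.ker_eq_bot']
    intro c hc
    have h1 := hd.hinj (fun i => C (c i)) (by
      intro j
      have h2 : ∑ i, C (c i) * A i j = C (T c j) := by
        simp only [T, LinearMap.coe_mk, AddHom.coe_mk, map_sum, map_mul]
        apply Finset.sum_congr rfl
        intro i _
        rw [← hconst i j]
      rw [h2, hc]
      simp)
    ext1 i
    have := congrFun h1 i
    simp only [Pi.zero_apply] at this
    exact C_eq_zero.1 this
  have hTsurj : Function.Surjective T := LinearMap.injective_iff_surjective.1 hTinj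
  choose g hg using hTsurj
  have hcomb : ∀ c : Fin r → k, ∑ i, C (c i) * v i = ∑ j, C (T c j) * n j := by
    intro c
    simp only [hd.hv, Finset.mul_sum, T, LinearMap.coe_mk, AddHom.coe_mk, map_sum, map_mul,
      Finset.sum_mul]
    rw [Finset.sum_comm]
    apply Finset.sum_congr rfl
    intro j _
    apply Finset.sum_congr rfl
    intro i _
    rw [hconst i j, expand_C, coeff_C_zero]
    ring
  have hcard : q ^ (∑ j, (if ρ + (n j).natDegree < M then 1 else 0)) ≤ (Cset (M - ρ) v).card := by
    have h1 : (Fintype.piFinset (fun j : Fin r => if ρ + (n j).natDegree < M then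
        (Finset.univ : Finset k) else {0})).card ≤ (Cset (M - ρ) v).card := by
      apply Finset.card_le_card_of_injOn g
      · intro d hd'
        rw [Finset.mem_coe, Fintype.mem_piFinset] at hd'
        rw [Finset.mem_coe, mem_Cset, hcomb, hg]
        apply sum_mem_PF
        intro j _
        have hj := hd' j
        by_cases hlt : ρ + (n j).natDegree < M
        · apply C_mul_mem_PF
          apply mem_PF_of_natDegree
          intro _
          omega
        · rw [if_neg hlt, Finset.mem_singleton] at hj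
          rw [hj, map_zero, zero_mul]
          exact zero_mem_PF _
      · intro a _ b _ hab
        rw [← hg a, ← hg b, hab]
    rw [Fintype.card_piFinset] at h1
    refine le_trans (le_of_eq ?_) h1
    rw [← Finset.prod_pow_eq_pow_sum]
    apply Finset.prod_congr rfl
    intro j _
    split_ifs
    · rw [Finset.card_univ, hqk, pow_one]
    · simp
  have hexp : r * M ≤ ∑ j, (N + 1 + (n j).natDegree) / q +
      ∑ j, (if ρ + (n j).natDegree < M then 1 else 0) := by
    rw [← Finset.sum_add_distrib]
    calc r * M = ∑ _j : Fin r, M := by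
          rw [Finset.sum_const, Finset.card_univ, Fintype.card_fin, smul_eq_mul]
      _ ≤ _ := by
          apply Finset.sum_le_sum
          intro j _
          exact arith_ge hq0 hM hN (hbig j)
  calc (KerF q N v).card * q ^ (r * M) ≤ (KerF q N v).card *
      (q ^ (∑ j, (N + 1 + (n j).natDegree) / q) *
        q ^ (∑ j, (if ρ + (n j).natDegree < M then 1 else 0))) := by
        rw [← pow_add]
        exact Nat.mul_le_mul_left _ (Nat.pow_le_pow_right hq0 hexp)
    _ = ((KerF q N v).card * q ^ (∑ j, (N + 1 + (n j).natDegree) / q)) *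
        q ^ (∑ j, (if ρ + (n j).natDegree < M then 1 else 0)) := by ring
    _ ≤ q ^ (N + 1) * (Cset (M - ρ) v).card := Nat.mul_le_mul hd.hcount hcard

/-- number of vectors with a prescribed small combination -/
theorem card_comb {r q M m : ℕ} (hqk : Fintype.card k = q)
    {Φ : Matrix (Fin r) (Fin r) k[X]} (hdet : Φ.det ≠ 0) (c : Fin r → k) (hc : c ≠ 0)
    (W : Finset (Fin r → k[X])) (hW : ∀ w ∈ W, (∀ b, w b ∈ PF k M) ∧
      ∑ i, C (c i) * mv Φ w i ∈ PF k m) :
    W.card ≤ q ^ (M * (r - 1) + m) := by
  classical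
  obtain ⟨j0, hj0⟩ : ∃ j0, ∑ i, C (c i) * Φ i j0 ≠ 0 := by
    by_contra hcon
    push Not at hcon
    apply hc
    have h1 : (fun i => C (c i)) = (0 : Fin r → k[X]) := by
      apply Matrix.eq_zero_of_vecMul_eq_zero hdet
      ext1 j
      exact hcon j
    ext1 i
    have := congrFun h1 i
    simp only [Pi.zero_apply] at this
    exact C_eq_zero.1 this
  have hswap : ∀ w : Fin r → k[X], ∑ i, C (c i) * mv Φ w i =
      (∑ i, C (c i) * Φ i j0) * w j0 +
        ∑ j ∈ Finset.univ.erase j0, (∑ i, C (c i) * Φ i j) * w j := by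
    intro w
    rw [Finset.add_sum_erase Finset.univ (fun j => (∑ i, C (c i) * Φ i j) * w j)
      (Finset.mem_univ j0)]
    unfold mv
    simp only [Finset.mul_sum, Finset.sum_mul]
    rw [Finset.sum_comm]
    apply Finset.sum_congr rfl
    intro j _
    apply Finset.sum_congr rfl
    intro b _
    ring
  have h1 : W.card ≤ (Fintype.piFinset (fun j : Fin r => if j = j0 then PF k m else
      PF k M)).card := by
    apply Finset.card_le_card_of_injOn
      (fun w => Function.update w j0 (∑ i, C (c i) * mv Φ w i))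
    · intro w hw
      rw [Finset.mem_coe, Fintype.mem_piFinset]
      intro j
      beta_reduce
      by_cases hj : j = j0
      · subst hj
        rw [if_pos rfl, Function.update_self]
        exact (hW w hw).2
      · rw [if_neg hj, Function.update_of_ne hj]
        exact (hW w hw).1 j
    · intro w _ z _ hwz
      simp only at hwz
      have hne : ∀ j, j ≠ j0 → w j = z j := by
        intro j hj
        have := congrFun hwz j
        rw [Function.update_of_ne hj, Function.update_of_ne hj] at this
        exact this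
      have h2 := congrFun hwz j0
      rw [Function.update_self, Function.update_self, hswap w, hswap z] at h2
      have h3 : ∑ j ∈ Finset.univ.erase j0, (∑ i, C (c i) * Φ i j) * w j =
          ∑ j ∈ Finset.univ.erase j0, (∑ i, C (c i) * Φ i j) * z j := by
        apply Finset.sum_congr rfl
        intro j hj
        rw [hne j (Finset.ne_of_mem_erase hj)]
      rw [h3] at h2
      have h4 := mul_left_cancel₀ hj0 (add_right_cancel h2)
      ext1 j
      by_cases hj : j = j0
      · rw [hj]; exact h4
      · exact hne j hj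
  rw [Fintype.card_piFinset] at h1
  refine h1.trans (le_of_eq ?_)
  rw [← Finset.prod_erase_mul Finset.univ _ (Finset.mem_univ j0), if_pos rfl, card_PF, hqk,
    Finset.prod_congr rfl (g := fun _ => q ^ M), Finset.prod_const,
    Finset.card_erase_of_mem (Finset.mem_univ _), Finset.card_univ, Fintype.card_fin, ← pow_mul,
    ← pow_add]
  intro j hj
  rw [if_neg (Finset.ne_of_mem_erase hj), card_PF, hqk]

/-- the sum over the vectors with constant data -/
theorem sum_const {r q f M N ρ : ℕ} (hqk : Fintype.card k = q) (hr : 1 ≤ r)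
    {Φ : Matrix (Fin r) (Fin r) k[X]} (hdet : Φ.det ≠ 0)
    (hq : r * f + 3 * r ^ 2 + 6 * r + 8 ≤ q) (hM : 4 * r ^ 2 + 8 ≤ M) (hρr : r + 1 ≤ ρ)
    (hN : N + 1 = (q - 1) * M + ρ) (T : Finset (Fin r → k[X]))
    (n : (Fin r → k[X]) → Fin r → k[X]) (A : (Fin r → k[X]) → Fin r → Fin r → k[X])
    (hT : ∀ w ∈ T, (∀ b, w b ∈ PF k M) ∧ Dt q N (M - 1 + f) (mv Φ w) (n w) (A w) ∧
      ∀ j, M - 1 + f < (n w j).natDegree + q) :
    ∑ w ∈ T, ((KerF q N (mv Φ w)).card : ℝ) ≤ (q : ℝ) ^ (N + 1) + (q : ℝ) ^ N := by
  classical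
  have hq0 : 0 < q := by omega
  have hqR : (1 : ℝ) ≤ (q : ℝ) := by exact_mod_cast hq0
  have hM1 : 1 ≤ M := by omega
  -- combinatorial bound
  have h1 : ∑ w ∈ T, (Cset (M - ρ) (mv Φ w)).card ≤ q ^ (r * M) + q ^ r * q ^ (M * (r - 1) + (M - ρ)) := by
    have h2 : ∑ w ∈ T, (Cset (M - ρ) (mv Φ w)).card = ∑ c : Fin r → k,
        (T.filter (fun w => ∑ i, C (c i) * mv Φ w i ∈ PF k (M - ρ))).card := by
      simp only [Cset, Finset.card_filter]
      rw [Finset.sum_comm]
    rw [h2, ← Finset.add_sum_erase Finset.univ _ (Finset.mem_univ (0 : Fin r → k))]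
    apply Nat.add_le_add
    · refine (Finset.card_le_card (Finset.filter_subset _ _)).trans ?_
      have h3 : T ⊆ Fintype.piFinset (fun _ : Fin r => PF k M) := by
        intro w hw
        rw [Fintype.mem_piFinset]
        exact (hT w hw).1
      refine (Finset.card_le_card h3).trans (le_of_eq ?_)
      rw [Fintype.card_piFinset, Finset.prod_const, card_PF, Finset.card_univ, Fintype.card_fin,
        hqk, ← pow_mul, mul_comm]
    · calc _ ≤ ∑ c ∈ Finset.univ.erase (0 : Fin r → k), q ^ (M * (r - 1) + (M - ρ)) := by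
            apply Finset.sum_le_sum
            intro c hc
            apply card_comb hqk hdet c (Finset.ne_of_mem_erase hc)
            intro w hw
            rw [Finset.mem_filter] at hw
            exact ⟨(hT w hw.1).1, hw.2⟩
        _ ≤ ∑ c : Fin r → k, q ^ (M * (r - 1) + (M - ρ)) :=
            Finset.sum_le_sum_of_subset (Finset.erase_subset _ _)
        _ = _ := by
            rw [Finset.sum_const, Finset.card_univ, smul_eq_mul, Fintype.card_fun,
              Fintype.card_fin, hqk]
  have h2 : q ^ r * q ^ (M * (r - 1) + (M - ρ)) * q ≤ q ^ (r * M) := by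
    rw [← pow_add, ← pow_succ]
    apply Nat.pow_le_pow_right hq0
    obtain ⟨a, rfl⟩ : ∃ a, r = a + 1 := ⟨r - 1, by omega⟩
    rw [Nat.add_sub_cancel]
    have e : (a + 1) * M = M * a + M := by ring
    rw [e]
    have : a + 2 ≤ M := by nlinarith
    omega
  have h3 : (∑ w ∈ T, ((KerF q N (mv Φ w)).card : ℝ)) * (q : ℝ) ^ (r * M) ≤
      (q : ℝ) ^ (N + 1) * ∑ w ∈ T, ((Cset (M - ρ) (mv Φ w)).card : ℝ) := by
    rw [Finset.sum_mul, Finset.mul_sum]
    apply Finset.sum_le_sum
    intro w hw
    obtain ⟨_, hd, hbig⟩ := hT w hw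
    exact_mod_cast ker_const hqk hq0 hM1 hN (mv Φ w) (n w) (A w) hd hbig
  have h4 : ∑ w ∈ T, ((Cset (M - ρ) (mv Φ w)).card : ℝ) ≤
      (q : ℝ) ^ (r * M) + (q : ℝ) ^ (r * M) / q := by
    have h5 : ∑ w ∈ T, ((Cset (M - ρ) (mv Φ w)).card : ℝ) ≤
        (q : ℝ) ^ (r * M) + (q : ℝ) ^ r * (q : ℝ) ^ (M * (r - 1) + (M - ρ)) := by
      exact_mod_cast h1
    refine h5.trans (add_le_add le_rfl ?_)
    rw [le_div_iff₀ (by positivity)]
    exact_mod_cast h2
  have h5 := h3.trans (mul_le_mul_of_nonneg_left h4 (by positivity))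
  have hpos : (0 : ℝ) < (q : ℝ) ^ (r * M) := by positivity
  have h6 : (q : ℝ) ^ (N + 1) * ((q : ℝ) ^ (r * M) + (q : ℝ) ^ (r * M) / q) =
      ((q : ℝ) ^ (N + 1) + (q : ℝ) ^ N) * (q : ℝ) ^ (r * M) := by
    have hq' : (q : ℝ) ≠ 0 := by positivity
    field_simp
    ring
  rw [h6] at h5
  exact le_of_mul_le_mul_right h5 hpos

end Pool.Agent.Y515.CntG
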