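import Pool.Agent.Y515.CntG.SumB

/-!
The count for an irreducible matrix.
-/

set_option autoImplicit false
set_option linter.unusedSectionVars false

open Polynomial Finset
open Pool.Agent.Y709 Pool.Agent.Y515.Cnt

namespace Pool.Agent.Y515.CntG

variable {k : Type} [Field k] [Fintype k]

open scoped Classical in
/-- the set of bad polynomials -/
noncomputable def BadF {r : ℕ} (q N : ℕ) (Φ : Matrix (Fin r) (Fin r) k[X]) : Finset k[X] :=
  (PF k (N + 1)).filter (fun D => ∃ w : Fin r → k[X], w ≠ 0 ∧ IsFix q Φ D w)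

theorem mem_BadF {r : ℕ} {q N : ℕ} {Φ : Matrix (Fin r) (Fin r) k[X]} {D : k[X]} :
    D ∈ BadF q N Φ ↔ D.natDegree ≤ N ∧ ∃ w : Fin r → k[X], w ≠ 0 ∧ IsFix q Φ D w := by
  classical
  unfold BadF
  rw [Finset.mem_filter, mem_PF_succ]

theorem natcard_bad {r : ℕ} {q N : ℕ} (Φ : Matrix (Fin r) (Fin r) k[X]) :
    Nat.card {D : k[X] // D.natDegree ≤ N ∧ ∃ w : Fin r → k[X], w ≠ 0 ∧
      ∀ i, cart q (D * ∑ j, Φ i j * w j) = w i} = (BadF q N Φ).card := by
  have h0 : Nat.card {D : k[X] // D.natDegree ≤ N ∧ ∃ w : Fin r → k[X], w ≠ 0 ∧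
      ∀ i, cart q (D * ∑ j, Φ i j * w j) = w i} = Nat.card {D : k[X] // D ∈ BadF q N Φ} := by
    apply Nat.card_congr
    refine Equiv.subtypeEquivRight ?_
    intro D
    rw [mem_BadF]
    rfl
  rw [h0, Nat.card_eq_fintype_card, Fintype.card_coe]

theorem bad_irred {r q f M N ρ : ℕ} (hqk : Fintype.card k = q) (hr : 1 ≤ r)
    (hlat : LatGen k q r)
    {Φ : Matrix (Fin r) (Fin r) k[X]} (hdet : Φ.det ≠ 0)
    (hirr : Irr Φ) (hf : ∀ i j, (Φ i j).natDegree ≤ f)
    (hq : r * f + 3 * r ^ 2 + 6 * r + 8 ≤ q) (hM : 4 * r ^ 2 + 8 ≤ M)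
    (hρr : r + 1 ≤ ρ) (hρ : ρ + f ≤ q - 1)
    (hN : N + 1 = (q - 1) * M + ρ) : (BadF q N Φ).card ≤ 2 * q ^ N := by
  classical
  have hq0 : 0 < q := by omega
  have hQ : (5 : ℝ) ≤ (q : ℝ) := by
    have : 5 ≤ q := by omega
    exact_mod_cast this
  have hQ0 : (0 : ℝ) < (q : ℝ) := by linarith
  set T : Finset (Fin r → k[X]) := (Fintype.piFinset (fun _ : Fin r => PF k M)).filter
    (fun w => w ≠ 0 ∧ ∃ D : k[X], D.natDegree ≤ N ∧ IsFix q Φ D w) with hT
  have hTmem : ∀ w ∈ T, (∀ b, w b ∈ PF k M) ∧ w ≠ 0 ∧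
      ∃ D : k[X], D.natDegree ≤ N ∧ IsFix q Φ D w := by
    intro w hw
    rw [hT, Finset.mem_filter, Fintype.mem_piFinset] at hw
    exact hw
  -- double counting
  have hdouble : (q - 1) * (BadF q N Φ).card ≤ ∑ w ∈ T, (FixF q N Φ w).card := by
    have h1 : ∑ w ∈ T, (FixF q N Φ w).card =
        ∑ D ∈ PF k (N + 1), (T.filter (fun w => IsFix q Φ D w)).card := by
      simp only [FixF, Finset.card_filter]
      rw [Finset.sum_comm]
    rw [h1]
    calc (q - 1) * (BadF q N Φ).card = ∑ D ∈ BadF q N Φ, (q - 1) := by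
          rw [Finset.sum_const, smul_eq_mul, mul_comm]
      _ ≤ ∑ D ∈ BadF q N Φ, (T.filter (fun w => IsFix q Φ D w)).card := by
          apply Finset.sum_le_sum
          intro D hD
          rw [mem_BadF] at hD
          obtain ⟨hDN, w, hw0, hfix⟩ := hD
          have hcu : (Finset.univ.filter (fun c : k => c ≠ 0)).card = q - 1 := by
            rw [Finset.filter_ne', Finset.card_erase_of_mem (Finset.mem_univ _),
              Finset.card_univ, hqk]
          rw [← hcu]
          obtain ⟨b, hb⟩ : ∃ b, w b ≠ 0 := by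
            by_contra hcon
            push Not at hcon
            exact hw0 (funext hcon)
          apply Finset.card_le_card_of_injOn (fun c : k => fun i => C c * w i)
          · intro c hc
            rw [Finset.mem_coe, Finset.mem_filter] at hc
            have hfc := isFix_smul hq0 hfix c
            rw [Finset.mem_coe, Finset.mem_filter]
            refine ⟨?_, hfc⟩
            rw [hT, Finset.mem_filter, Fintype.mem_piFinset]
            refine ⟨fun i => fixed_bound (by omega) hf hρ (by omega) hN hDN hfc i, ?_, D, hDN, hfc⟩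
            intro h0
            have h1 := congrFun h0 b
            have hC : (C c : k[X]) ≠ 0 := C_ne_zero.2 hc.2
            exact (mul_ne_zero hC hb) h1
          · intro c _ c' _ h
            have h1 := congrFun h b
            exact C_injective (mul_right_cancel₀ hb h1)
      _ ≤ _ := by
          apply Finset.sum_le_sum_of_subset
          intro D hD
          rw [mem_BadF] at hD
          rw [mem_PF_succ]
          exact hD.1
  -- splitting the sum
  set T1 := T.filter (fun w => ∃ L : Fin r → k[X], L ≠ 0 ∧ ∑ b, expand k q (L b) * mv Φ w b = 0)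
    with hT1
  set T2 := T.filter (fun w => ¬ ∃ L : Fin r → k[X], L ≠ 0 ∧ ∑ b, expand k q (L b) * mv Φ w b = 0)
    with hT2
  have hM1 : 1 ≤ M := by omega
  have hex : ∀ w ∈ T2, ∃ nA : (Fin r → k[X]) × (Fin r → Fin r → k[X]),
      Dt q N (M - 1 + f) (mv Φ w) nA.1 nA.2 := by
    intro w hw
    rw [hT2, Finset.mem_filter] at hw
    have hww := hTmem w hw.1
    obtain ⟨n, A, h⟩ := exists_dt hqk hr hlat hq hM hρ hN (mv Φ w)
      (natDegree_mv_le hf hM1 hww.1) (by
        intro a ha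
        by_contra hne
        exact hw.2 ⟨a, hne, ha⟩)
    exact ⟨(n, A), h⟩
  have hnonempty : Nonempty ((Fin r → k[X]) × (Fin r → Fin r → k[X])) := ⟨(0, 0)⟩
  choose! nA hnA using hex
  have s1 : ∑ w ∈ T1, ((FixF q N Φ w).card : ℝ) ≤ (q : ℝ) ^ N := by
    apply sum_low hqk hdet hirr hf hq hM (by omega) hρ hN
    intro w hw
    rw [hT1, Finset.mem_filter] at hw
    obtain ⟨h1, h2, D, _, hD⟩ := hTmem w hw.1
    exact ⟨h1, h2, ⟨D, hD⟩, hw.2⟩
  have s2 : ∑ w ∈ T2, ((KerF q N (mv Φ w)).card : ℝ) ≤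
      ((q : ℝ) ^ (N + 1) + (q : ℝ) ^ N) + (q : ℝ) ^ N := by
    rw [← Finset.sum_filter_add_sum_filter_not T2
      (fun w => ∀ j, M - 1 + f < ((nA w).1 j).natDegree + q)]
    apply add_le_add
    · apply sum_const hqk hr hdet hq hM hρr hN _ (fun w => (nA w).1) (fun w => (nA w).2)
      intro w hw
      rw [Finset.mem_filter] at hw
      refine ⟨?_, hnA w hw.1, hw.2⟩
      have := hw.1
      rw [hT2, Finset.mem_filter] at this
      exact (hTmem w this.1).1
    · apply sum_short hqk hdet hq hM hN _ (fun w => (nA w).1) (fun w => (nA w).2)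
      intro w hw
      rw [Finset.mem_filter] at hw
      refine ⟨hnA w hw.1, ?_⟩
      have := hw.2
      push Not at this
      exact this
  have hsum : ∑ w ∈ T, ((FixF q N Φ w).card : ℝ) ≤ (q : ℝ) ^ (N + 1) + 3 * (q : ℝ) ^ N := by
    rw [← Finset.sum_filter_add_sum_filter_not T
      (fun w => ∃ L : Fin r → k[X], L ≠ 0 ∧ ∑ b, expand k q (L b) * mv Φ w b = 0)]
    have s3 : ∑ w ∈ T2, ((FixF q N Φ w).card : ℝ) ≤ ∑ w ∈ T2, ((KerF q N (mv Φ w)).card : ℝ) := by
      apply Finset.sum_le_sum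
      intro w _
      exact_mod_cast card_fix_le hq0 Φ w
    have := s3.trans s2
    linarith
  have hfinal : ((q : ℝ) - 1) * ((BadF q N Φ).card : ℝ) ≤
      (q : ℝ) ^ (N + 1) + 3 * (q : ℝ) ^ N := by
    have h1 : (((q - 1) * (BadF q N Φ).card : ℕ) : ℝ) ≤
        ((∑ w ∈ T, (FixF q N Φ w).card : ℕ) : ℝ) := by
      exact_mod_cast hdouble
    rw [Nat.cast_mul, Nat.cast_sub (by omega), Nat.cast_one, Nat.cast_sum] at h1
    exact h1.trans hsum
  have hR : ((BadF q N Φ).card : ℝ) ≤ 2 * (q : ℝ) ^ N := by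
    have hpos : (0 : ℝ) < (q : ℝ) ^ N := by positivity
    have h4 : ((q : ℝ) - 1) * ((BadF q N Φ).card : ℝ) ≤ ((q : ℝ) - 1) * (2 * (q : ℝ) ^ N) := by
      refine hfinal.trans ?_
      rw [pow_succ]
      nlinarith
    exact le_of_mul_le_mul_left h4 (by linarith)
  exact_mod_cast hR

end Pool.Agent.Y515.CntG
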