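import Pool.Agent.Y709.GStm
import Pool.Agent.Y515.Cnt.Basic
import Mathlib.RingTheory.Localization.Integer
import Mathlib.RingTheory.Localization.FractionRing
import Mathlib.LinearAlgebra.Dual.Lemmas
import Mathlib.Algebra.Polynomial.RingDivision

/-!
Vectors of polynomials, the Cartier operator and linear relations.
-/

set_option autoImplicit false
set_option linter.unusedSectionVars false

open Polynomial Finset
open Pool.Agent.Y709 Pool.Agent.Y515.Cnt

namespace Pool.Agent.Y515.CntG

variable {k : Type} [Field k] [Fintype k]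

theorem natDegree_cart' {q : ℕ} (hq : 0 < q) {g : k[X]} (h : cart q g ≠ 0) :
    q * (cart q g).natDegree + (q - 1) ≤ g.natDegree := by
  have h1 : (cart q g).coeff (cart q g).natDegree ≠ 0 := by
    rw [coeff_natDegree]; exact leadingCoeff_ne_zero.2 h
  rw [coeff_cart hq] at h1
  exact le_natDegree_of_ne_zero h1

theorem cart_sum {ι : Type*} {q : ℕ} (hq : 0 < q) (s : Finset ι) (g : ι → k[X]) :
    cart q (∑ i ∈ s, g i) = ∑ i ∈ s, cart q (g i) := by
  classical
  induction s using Finset.induction_on with
  | empty => simp [cart_zero hq]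
  | insert a s ha ih => rw [Finset.sum_insert ha, Finset.sum_insert ha, cart_add hq, ih]

/-- the `i`-th component of a polynomial (in reversed order) -/
noncomputable def cp (q i : ℕ) (g : k[X]) : k[X] := cart q (X ^ i * g)

theorem coeff_cp {q : ℕ} (hq : 0 < q) {i : ℕ} (hi : i < q) (g : k[X]) (m : ℕ) :
    (cp q i g).coeff m = g.coeff (q * m + (q - 1 - i)) := by
  unfold cp
  rw [coeff_cart hq]
  have : q * m + (q - 1) = (q * m + (q - 1 - i)) + i := by omega
  rw [this, coeff_X_pow_mul]

theorem cp_expand_mul {q : ℕ} (hq : 0 < q) (i : ℕ) (h g : k[X]) :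
    cp q i (expand k q h * g) = h * cp q i g := by
  unfold cp
  rw [← cart_expand_mul hq]
  congr 1
  ring

theorem cp_sum {ι : Type*} {q : ℕ} (hq : 0 < q) (i : ℕ) (s : Finset ι) (g : ι → k[X]) :
    cp q i (∑ j ∈ s, g j) = ∑ j ∈ s, cp q i (g j) := by
  unfold cp
  rw [Finset.mul_sum, cart_sum hq]

theorem cp_zero {q : ℕ} (hq : 0 < q) (i : ℕ) : cp q i (0 : k[X]) = 0 := by
  unfold cp
  rw [mul_zero, cart_zero hq]

theorem eq_zero_of_cp {q : ℕ} (hq : 0 < q) {g : k[X]} (h : ∀ i < q, cp q i g = 0) : g = 0 := by
  ext n
  have hlt : n % q < q := Nat.mod_lt _ hq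
  have h1 := h (q - 1 - n % q) (by omega)
  have h2 := coeff_cp hq (i := q - 1 - n % q) (by omega) g (n / q)
  rw [h1] at h2
  have h3 : q * (n / q) + (q - 1 - (q - 1 - n % q)) = n := by
    have : q - 1 - (q - 1 - n % q) = n % q := by omega
    rw [this]
    exact Nat.div_add_mod n q
  rw [h3] at h2
  rw [coeff_zero] at h2 ⊢
  exact h2.symm

theorem natDegree_cp {q : ℕ} (hq : 0 < q) {i : ℕ} (hi : i < q) (g : k[X]) :
    (cp q i g).natDegree ≤ g.natDegree / q := by
  by_cases h0 : cp q i g = 0
  · rw [h0, natDegree_zero]; exact Nat.zero_le _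
  · have h1 : (cp q i g).coeff (cp q i g).natDegree ≠ 0 := by
      rw [coeff_natDegree]; exact leadingCoeff_ne_zero.2 h0
    rw [coeff_cp hq hi] at h1
    have h2 := le_natDegree_of_ne_zero h1
    rw [Nat.le_div_iff_mul_le hq, mul_comm]
    omega

/-- components of a vector -/
noncomputable def vcp (q i : ℕ) {r : ℕ} (v : Fin r → k[X]) : Fin r → k[X] := fun b => cp q i (v b)

/-- A relation for all components is a relation over the `q`-th powers. -/
theorem rel_iff {q : ℕ} (hq : 0 < q) {r : ℕ} (v l : Fin r → k[X]) :
    (∑ b, expand k q (l b) * v b = 0) ↔ ∀ i < q, ∑ b, l b * vcp q i v b = 0 := by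
  constructor
  · intro h i _
    have h1 := congrArg (cp q i) h
    rw [cp_sum hq, cp_zero hq] at h1
    rw [← h1]
    apply Finset.sum_congr rfl
    intro b _
    rw [cp_expand_mul hq]
    rfl
  · intro h
    apply eq_zero_of_cp hq
    intro i hi
    rw [cp_sum hq, ← h i hi]
    apply Finset.sum_congr rfl
    intro b _
    rw [cp_expand_mul hq]
    rfl

/-- a relation of `v` is orthogonal to every `C (D v)` -/
theorem rel_cart {q : ℕ} (hq : 0 < q) {r : ℕ} {v l : Fin r → k[X]}
    (h : ∑ b, expand k q (l b) * v b = 0) (D : k[X]) :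
    ∑ b, l b * cart q (D * v b) = 0 := by
  have h1 : cart q (D * ∑ b, expand k q (l b) * v b) = 0 := by rw [h, mul_zero, cart_zero hq]
  rw [← h1, Finset.mul_sum, cart_sum hq]
  apply Finset.sum_congr rfl
  intro b _
  rw [← cart_expand_mul hq]
  congr 1
  ring

section frac

variable (K : Type) [Field K] [Algebra k[X] K] [IsFractionRing k[X] K]

/-- vectors of polynomials as vectors over the fraction field -/
noncomputable def io {r : ℕ} (v : Fin r → k[X]) : Fin r → K := fun b => algebraMap k[X] K (v b)

theorem io_injective {r : ℕ} : Function.Injective (io K (k := k) (r := r)) := by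
  intro v w h
  ext1 b
  exact IsFractionRing.injective k[X] K (congrFun h b)

/-- separation of a vector from a subspace by polynomial functionals -/
theorem exists_sep {r : ℕ} (P : Submodule K (Fin r → K)) {x : Fin r → k[X]} (hx : io K x ∉ P) :
    ∃ l : Fin r → k[X], (∀ y : Fin r → k[X], io K y ∈ P → ∑ b, l b * y b = 0) ∧
      ∑ b, l b * x b ≠ 0 := by
  classical
  obtain ⟨φ, hφx, hφ⟩ := Submodule.exists_le_ker_of_notMem hx
  obtain ⟨d, hd⟩ := IsLocalization.exist_integer_multiples_of_finite (nonZeroDivisors k[X])
    (fun b : Fin r => φ (Pi.single b 1))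
  choose l hl using hd
  have hdK : algebraMap k[X] K (d : k[X]) ≠ 0 := IsFractionRing.to_map_ne_zero_of_mem_nonZeroDivisors d.2
  have key : ∀ y : Fin r → k[X], algebraMap k[X] K (∑ b, l b * y b) =
      algebraMap k[X] K (d : k[X]) * φ (io K y) := by
    intro y
    rw [map_sum]
    have h1 : io K y = ∑ b, (io K y b) • (Pi.single b (1 : K) : Fin r → K) := by
      ext c
      rw [Finset.sum_apply, Finset.sum_eq_single c]
      · simp
      · intro b _ hbc
        simp [hbc.symm]
      · intro h; exact absurd (Finset.mem_univ c) h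
    rw [h1, map_sum, Finset.mul_sum]
    apply Finset.sum_congr rfl
    intro b _
    rw [map_mul, hl b, map_smul, Algebra.smul_def, smul_eq_mul]
    unfold io
    ring
  refine ⟨l, ?_, ?_⟩
  · intro y hy
    have h1 := key y
    have h2 : φ (io K y) = 0 := hφ hy
    rw [h2, mul_zero] at h1
    exact (map_eq_zero_iff _ (IsFractionRing.injective k[X] K)).1 h1
  · intro h0
    have h1 := key x
    rw [h0, map_zero] at h1
    exact (mul_ne_zero hdK hφx) h1.symm

/-- A polynomial functional vanishing on generators vanishes on the span. -/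
theorem rel_span {r : ℕ} (S : Set (Fin r → k[X])) (l : Fin r → k[X])
    (h : ∀ y ∈ S, ∑ b, l b * y b = 0) {x : Fin r → k[X]}
    (hx : io K x ∈ Submodule.span K (io K '' S)) : ∑ b, l b * x b = 0 := by
  have key : ∀ z ∈ Submodule.span K (io K '' S), ∑ b, algebraMap k[X] K (l b) * z b = 0 := by
    intro z hz
    induction hz using Submodule.span_induction with
    | mem z hz =>
      obtain ⟨y, hy, rfl⟩ := hz
      have := congrArg (algebraMap k[X] K) (h y hy)
      rw [map_sum, map_zero] at this
      rw [← this]
      apply Finset.sum_congr rfl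
      intro b _
      rw [map_mul]; rfl
    | zero => simp
    | add a b _ _ ha hb =>
      simp only [Pi.add_apply, mul_add, Finset.sum_add_distrib, ha, hb, add_zero]
    | smul c a _ ha =>
      simp only [Pi.smul_apply, smul_eq_mul]
      have : ∑ b, algebraMap k[X] K (l b) * (c * a b) = c * ∑ b, algebraMap k[X] K (l b) * a b := by
        rw [Finset.mul_sum]
        apply Finset.sum_congr rfl
        intro b _
        ring
      rw [this, ha, mul_zero]
  have h1 := key _ hx
  apply IsFractionRing.injective k[X] K
  rw [map_zero, map_sum, ← h1]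
  apply Finset.sum_congr rfl
  intro b _
  rw [map_mul]; rfl

/-- the number of small polynomial vectors in a subspace of dimension `d` -/
theorem card_le_of_subspace {r M : ℕ} (P : Submodule K (Fin r → K)) (W : Finset (Fin r → k[X]))
    (hW : ∀ w ∈ W, (∀ b, w b ∈ PF k M) ∧ io K w ∈ P) :
    W.card ≤ (Fintype.card k ^ M) ^ Module.finrank K P := by
  classical
  let φ : Fin r → Module.Dual K P := fun b => (LinearMap.proj b).comp P.subtype
  have hmle : Module.finrank K (Submodule.span K (Set.range φ)) ≤ Module.finrank K P := by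
    rw [← Subspace.dual_finrank_eq (K := K) (V := P)]
    exact Submodule.finrank_le _
  obtain ⟨f, hf, hfs, -⟩ := Submodule.exists_fun_fin_finrank_span_eq K (Set.range φ)
  revert f
  generalize Module.finrank K (Submodule.span K (Set.range φ)) = m at hmle
  intro f hf hfs
  choose ix hix using hf
  have h1 : W.card ≤ (Fintype.piFinset (fun _ : Fin m => PF k M)).card := by
    apply Finset.card_le_card_of_injOn (fun w => fun i => w (ix i))
    · intro w hw
      rw [Finset.mem_coe, Fintype.mem_piFinset]
      intro i
      exact (hW w hw).1 _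
    · intro w hw z hz hwz
      have hwP := (hW w hw).2
      have hzP := (hW z hz).2
      let p : P := ⟨io K w, hwP⟩ - ⟨io K z, hzP⟩
      have hker : ∀ g ∈ Submodule.span K (Set.range φ), g p = 0 := by
        rw [← hfs]
        intro g hg
        induction hg using Submodule.span_induction with
        | mem g hg =>
          obtain ⟨i, rfl⟩ := hg
          rw [← hix i]
          have : w (ix i) = z (ix i) := congrFun hwz i
          simp only [φ, p, LinearMap.comp_apply, map_sub, Submodule.subtype_apply,
            LinearMap.proj_apply, io, this, sub_self]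
        | zero => simp
        | add a b _ _ ha hb => rw [LinearMap.add_apply, ha, hb, add_zero]
        | smul c a _ ha => rw [LinearMap.smul_apply, ha, smul_zero]
      apply io_injective K
      ext b
      have h2 := hker (φ b) (Submodule.subset_span ⟨b, rfl⟩)
      simp only [φ, p, LinearMap.comp_apply, map_sub, Submodule.subtype_apply,
        LinearMap.proj_apply] at h2
      exact sub_eq_zero.1 h2
  refine h1.trans ?_
  rw [Fintype.card_piFinset, Finset.prod_const, card_PF, Finset.card_univ, Fintype.card_fin]
  exact Nat.pow_le_pow_right (by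
    have : 0 < Fintype.card k := Fintype.card_pos
    positivity) hmle

end frac

end Pool.Agent.Y515.CntG
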