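import Pool.Agent.Y515.CntG.Basic

/-!
Sizes of kernels of the maps `D ↦ C (D v)`.
-/

set_option autoImplicit false
set_option linter.unusedSectionVars false

open Polynomial Finset
open Pool.Agent.Y709 Pool.Agent.Y515.Cnt

namespace Pool.Agent.Y515.CntG

variable {k : Type} [Field k] [Fintype k]

/-- matrix times vector -/
noncomputable def mv {r : ℕ} (Φ : Matrix (Fin r) (Fin r) k[X]) (w : Fin r → k[X]) : Fin r → k[X] :=
  fun i => ∑ j, Φ i j * w j

/-- `w` is fixed by `D` -/
def IsFix {r : ℕ} (q : ℕ) (Φ : Matrix (Fin r) (Fin r) k[X]) (D : k[X]) (w : Fin r → k[X]) : Prop :=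
  ∀ i, cart q (D * ∑ j, Φ i j * w j) = w i

open scoped Classical in
/-- the kernel -/
noncomputable def KerF {r : ℕ} (q N : ℕ) (v : Fin r → k[X]) : Finset k[X] :=
  (PF k (N + 1)).filter (fun D => ∀ i, cart q (D * v i) = 0)

open scoped Classical in
/-- the set of those `D` that fix `w` -/
noncomputable def FixF {r : ℕ} (q N : ℕ) (Φ : Matrix (Fin r) (Fin r) k[X]) (w : Fin r → k[X]) :
    Finset k[X] := (PF k (N + 1)).filter (fun D => IsFix q Φ D w)

theorem mem_KerF {r : ℕ} {q N : ℕ} {v : Fin r → k[X]} {D : k[X]} :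
    D ∈ KerF q N v ↔ D ∈ PF k (N + 1) ∧ ∀ i, cart q (D * v i) = 0 := by
  classical
  unfold KerF
  rw [Finset.mem_filter]

theorem mem_FixF {r : ℕ} {q N : ℕ} {Φ : Matrix (Fin r) (Fin r) k[X]} {w : Fin r → k[X]} {D : k[X]} :
    D ∈ FixF q N Φ w ↔ D ∈ PF k (N + 1) ∧ IsFix q Φ D w := by
  classical
  unfold FixF
  rw [Finset.mem_filter]

theorem natcard_ker {r : ℕ} {q N : ℕ} (v : Fin r → k[X]) :
    Nat.card {D : k[X] // D.natDegree ≤ N ∧ ∀ i, cart q (D * v i) = 0} = (KerF q N v).card := by
  have h0 : Nat.card {D : k[X] // D.natDegree ≤ N ∧ ∀ i, cart q (D * v i) = 0} =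
      Nat.card {D : k[X] // D ∈ KerF q N v} := by
    apply Nat.card_congr
    refine Equiv.subtypeEquivRight ?_
    intro D
    rw [mem_KerF, mem_PF_succ]
  rw [h0, Nat.card_eq_fintype_card, Fintype.card_coe]

theorem card_fix_le {r : ℕ} {q N : ℕ} (hq0 : 0 < q) (Φ : Matrix (Fin r) (Fin r) k[X])
    (w : Fin r → k[X]) : (FixF q N Φ w).card ≤ (KerF q N (mv Φ w)).card := by
  rcases (FixF q N Φ w).eq_empty_or_nonempty with h0 | ⟨D0, hD0⟩
  · rw [h0]; simp
  · apply Finset.card_le_card_of_injOn (fun D => D - D0)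
    · intro D hD
      rw [Finset.mem_coe, mem_FixF] at hD
      rw [mem_FixF] at hD0
      rw [Finset.mem_coe, mem_KerF]
      refine ⟨sub_mem_PF hD.1 hD0.1, ?_⟩
      intro i
      have h1 := hD.2 i
      have h2 := hD0.2 i
      unfold mv
      rw [sub_mul, cart_sub hq0, h1, h2, sub_self]
    · intro D _ D' _ h
      simpa using h

theorem sum_mem_PF {ι : Type*} {n : ℕ} (s : Finset ι) (g : ι → k[X]) (h : ∀ i ∈ s, g i ∈ PF k n) :
    ∑ i ∈ s, g i ∈ PF k n := by
  classical
  induction s using Finset.induction_on with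
  | empty => simpa using zero_mem_PF n
  | insert a s ha ih =>
    rw [Finset.sum_insert ha]
    exact add_mem_PF (h a (Finset.mem_insert_self a s))
      (ih (fun i hi => h i (Finset.mem_insert_of_mem hi)))

theorem X_pow_expand_mem {q N i : ℕ} (hq0 : 0 < q) (hi : i < q) {a : k[X]}
    (ha : a ∈ PF k ((N + 1) / q)) : X ^ i * expand k q a ∈ PF k (N + 1) := by
  apply mem_PF_of_natDegree
  intro hne
  have ha0 : a ≠ 0 := by
    intro h0
    apply hne
    rw [h0, map_zero, mul_zero]
  have h1 := natDegree_lt_of_mem_PF ha ha0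
  have h2 : (X ^ i * expand k q a).natDegree ≤ i + a.natDegree * q := by
    refine natDegree_mul_le.trans ?_
    rw [natDegree_X_pow, natDegree_expand]
  have h3 : (a.natDegree + 1) * q ≤ (N + 1) / q * q := Nat.mul_le_mul_right q h1
  have h4 : (N + 1) / q * q ≤ N + 1 := Nat.div_mul_le_self _ _
  rw [add_mul, one_mul] at h3
  omega

/-- kernel bound from independent components -/
theorem ker_indep {r s q N : ℕ} (hq : Fintype.card k = q) (hq0 : 0 < q) (v : Fin r → k[X])
    (i : Fin s → ℕ) (hi : ∀ l, i l < q)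
    (hind : ∀ a : Fin s → k[X], (∀ b, ∑ l, a l * vcp q (i l) v b = 0) → a = 0) :
    (KerF q N v).card * q ^ (s * ((N + 1) / q)) ≤ q ^ (N + 1) := by
  classical
  have h1 : ((KerF q N v) ×ˢ (Fintype.piFinset (fun _ : Fin s => PF k ((N + 1) / q)))).card ≤
      (PF k (N + 1)).card := by
    apply Finset.card_le_card_of_injOn (fun x => x.1 + ∑ l, X ^ (i l) * expand k q (x.2 l))
    · intro x hx
      rw [Finset.mem_coe, Finset.mem_product, Fintype.mem_piFinset, mem_KerF] at hx
      rw [Finset.mem_coe]
      apply add_mem_PF hx.1.1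
      apply sum_mem_PF
      intro l _
      exact X_pow_expand_mem hq0 (hi l) (hx.2 l)
    · intro x hx y hy hxy
      rw [Finset.mem_coe, Finset.mem_product, mem_KerF] at hx hy
      simp only at hxy
      have hD : x.1 - y.1 = ∑ l, X ^ (i l) * expand k q (y.2 l - x.2 l) := by
        have : ∑ l, X ^ (i l) * expand k q (y.2 l - x.2 l) =
            ∑ l, X ^ (i l) * expand k q (y.2 l) - ∑ l, X ^ (i l) * expand k q (x.2 l) := by
          rw [← Finset.sum_sub_distrib]
          apply Finset.sum_congr rfl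
          intro l _
          rw [map_sub]; ring
        rw [this]
        linear_combination hxy
      have h2 : (fun l => y.2 l - x.2 l) = 0 := by
        apply hind
        intro b
        have h3 : cart q ((x.1 - y.1) * v b) = 0 := by
          rw [sub_mul, cart_sub hq0, hx.1.2 b, hy.1.2 b, sub_self]
        rw [hD, Finset.sum_mul, cart_sum hq0] at h3
        rw [← h3]
        apply Finset.sum_congr rfl
        intro l _
        have : X ^ (i l) * expand k q (y.2 l - x.2 l) * v b =
            expand k q (y.2 l - x.2 l) * (X ^ (i l) * v b) := by ring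
        rw [this, cart_expand_mul hq0]
        rfl
      have h4 : x.2 = y.2 := by
        ext1 l
        have := congrFun h2 l
        simp only [Pi.zero_apply] at this
        exact (sub_eq_zero.1 this).symm
      have h5 : x.1 = y.1 := by
        rw [h4] at hxy
        exact add_right_cancel hxy
      exact Prod.ext h5 h4
  rw [Finset.card_product, Fintype.card_piFinset, Finset.prod_const, card_PF, card_PF,
    Finset.card_univ, Fintype.card_fin, hq, ← pow_mul, mul_comm ((N + 1) / q)] at h1
  exact h1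

/-- fixed vectors have small degree -/
theorem fixed_bound {r q N M f ρ : ℕ} (hq0 : 1 < q) {Φ : Matrix (Fin r) (Fin r) k[X]}
    (hf : ∀ i j, (Φ i j).natDegree ≤ f) (hρ : ρ + f ≤ q - 1) (hρ1 : 1 ≤ ρ)
    (hN : N + 1 = (q - 1) * M + ρ)
    {D : k[X]} (hD : D.natDegree ≤ N) {w : Fin r → k[X]} (hw : IsFix q Φ D w) (i : Fin r) :
    w i ∈ PF k M := by
  classical
  apply mem_PF_of_natDegree
  intro hi
  -- an index of maximal degree
  obtain ⟨m, _, hm⟩ := Finset.exists_max_image Finset.univ (fun j => (w j).natDegree)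
    ⟨i, Finset.mem_univ i⟩
  have hmi := hm i (Finset.mem_univ i)
  -- if w m = 0 then its degree is zero: still fine, choose by nonvanishing
  have key : ∀ j, w j ≠ 0 → (w j).natDegree = (w m).natDegree → (w m).natDegree < M := by
    intro j hj hjm
    have h1 : cart q (D * ∑ a, Φ j a * w a) ≠ 0 := by rw [hw j]; exact hj
    have h2 := natDegree_cart' (by omega) h1
    rw [hw j] at h2
    have h3 : (D * ∑ a, Φ j a * w a).natDegree ≤ N + (f + (w m).natDegree) := by
      refine natDegree_mul_le.trans (Nat.add_le_add hD ?_)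
      apply natDegree_sum_le_of_forall_le
      intro a _
      exact natDegree_mul_le.trans (Nat.add_le_add (hf j a) (hm a (Finset.mem_univ a)))
    rw [hjm] at h2
    have h4 := h2.trans h3
    by_contra hcon
    rw [not_lt] at hcon
    obtain ⟨t, rfl⟩ : ∃ t, q = t + 1 := ⟨q - 1, by omega⟩
    rw [Nat.add_sub_cancel] at *
    have h5 : t * M ≤ t * (w m).natDegree := Nat.mul_le_mul_left t hcon
    have h6 : (t + 1) * (w m).natDegree = t * (w m).natDegree + (w m).natDegree := by ring
    rw [h6] at h4
    omega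
  by_cases h0 : w m = 0
  · have h1 : (w i).natDegree = (w m).natDegree := by
      rw [h0, natDegree_zero] at hmi ⊢
      omega
    have := key i hi h1
    omega
  · have := key m h0 rfl
    omega

theorem isFix_smul {r q : ℕ} (hq : 0 < q) {Φ : Matrix (Fin r) (Fin r) k[X]} {D : k[X]}
    {w : Fin r → k[X]} (hw : IsFix q Φ D w) (c : k) : IsFix q Φ D (fun i => C c * w i) := by
  intro i
  have : D * ∑ j, Φ i j * (C c * w j) = C c * (D * ∑ j, Φ i j * w j) := by
    rw [Finset.mul_sum, Finset.mul_sum, Finset.mul_sum]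
    apply Finset.sum_congr rfl
    intro j _
    ring
  rw [this, cart_C_mul hq, hw i]

end Pool.Agent.Y515.CntG
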